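import Pool.Agent.H18.Qp2

namespace Pool.Agent.Results.MP_c0e3d8_co.Weak

open Pool.Agent.H18.Qp

theorem result (A : Type) [Finite A] (f : A → List A) (a : A) (x : ℕ → A)
    (hg : Generates f a x) (hx : QP x) (hf : ¬ ∃ k, f a = List.replicate k a) :
    WeaklyQP f :=
  main f a x hg hx hf

end Pool.Agent.Results.MP_c0e3d8_co.Weak
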